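import Mathlib

set_option autoImplicit false

namespace Pool.Agent.Y73.UR

open CategoryTheory CategoryTheory.Limits

/-- The union of a sequence of rings along injective homomorphisms. -/
theorem exists_union (A : ℕ → Type) [∀ n, Ring (A n)] (d : ∀ n, A n →+* A (n + 1))
    (hd : ∀ n, Function.Injective (d n)) :
    ∃ (R : Type) (_ : Ring R) (μ : ∀ n, A n →+* R),
      (∀ n, Function.Injective (μ n)) ∧ (∀ n a, μ (n + 1) (d n a) = μ n a) ∧
      ∀ r : R, ∃ n a, μ n a = r := by
  let F : ℕ ⥤ RingCat.{0} := Functor.ofSequence (X := fun n => RingCat.of (A n))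
    (fun n => RingCat.ofHom (d n))
  have hstep : ∀ n, F.map (homOfLE (Nat.le_add_right n 1)) = RingCat.ofHom (d n) := fun n =>
    Functor.ofSequence_map_homOfLE_succ _ n
  have hinj : ∀ n m (h : n ≤ m), Function.Injective (F.map (homOfLE h)) := by
    intro n m h
    induction m, h using Nat.le_induction with
    | base =>
      have : F.map (homOfLE (le_refl n)) = 𝟙 _ := F.map_id n
      rw [this]
      exact fun a b hab => hab
    | succ m h ih =>
      have h2 : F.map (homOfLE (Nat.le_succ_of_le h)) =
          F.map (homOfLE h) ≫ F.map (homOfLE (Nat.le_add_right m 1)) := by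
        rw [← F.map_comp]
        rfl
      rw [hstep] at h2
      intro a b hab
      rw [h2] at hab
      exact ih (hd m hab)
  refine ⟨(colimit F : RingCat.{0}), inferInstance, fun n => (colimit.ι F n).hom, ?_, ?_, ?_⟩
  · intro n a b hab
    obtain ⟨k, f, g, hfg⟩ := (Concrete.colimit_rep_eq_iff_exists F (i := n) (j := n) a b).1 hab
    have : f = g := Subsingleton.elim _ _
    subst this
    exact hinj n k (leOfHom f) hfg
  · intro n a
    have := colimit.w F (homOfLE (Nat.le_add_right n 1))
    rw [hstep] at this
    exact congrArg (fun φ => φ.hom a) this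
  · intro r
    obtain ⟨n, a, ha⟩ := Concrete.colimit_exists_rep F r
    exact ⟨n, a, ha⟩

end Pool.Agent.Y73.UR
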