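import Pool.Agent.Y73.UR.Index
import Pool.Agent.Y73.UR.Lim

set_option autoImplicit false

namespace Pool.Agent.Y73.UR

/-- an index set with signs -/
structure Sg where
  ι : Type
  [fin : Fintype ι]
  [dec : DecidableEq ι]
  s : ι → Bool

attribute [instance] Sg.fin Sg.dec

/-- the next level -/
def Sg.next (S : Sg) : Sg := ⟨S.ι × Fin 3, sn S.s⟩

/-- the levels -/
def lev : ℕ → Sg
  | 0 => ⟨Unit, fun _ => false⟩
  | n + 1 => (lev n).next

theorem del_lev (n : ℕ) : del (lev n).s = 1 := by
  induction n with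
  | zero => rfl
  | succ n ih => exact (del_sn _).trans ih

/-- A von Neumann regular ring all of whose homomorphic images are directly finite and which is
not unit-regular. -/
theorem main (F : Type) [Field F] : ∃ (R : Type) (_ : Ring R), (∀ a : R, ∃ x : R, a * x * a = a) ∧
    (∀ (S : Type) [Ring S] (f : R →+* S), Function.Surjective f →
      ∀ x y : S, x * y = 1 → y * x = 1) ∧
    ∃ a : R, ∀ u : Rˣ, a * (u : R) * a ≠ a := by
  let Am : ℕ → Type := fun n => A (F := F) (lev n).s
  let d : ∀ n, Am n →+* Am (n + 1) := fun n => dA (F := F) (lev n).s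
  have hd : ∀ n, Function.Injective (d n) := fun n => dA_inj _
  obtain ⟨R, instR, μ, hμ, hμd, hR⟩ := exists_union Am d hd
  have hlift : ∀ n m, n ≤ m → ∀ a : Am n, ∃ a' : Am m, μ m a' = μ n a := by
    intro n m h
    induction m, h using Nat.le_induction with
    | base => exact fun a => ⟨a, rfl⟩
    | succ m h ih =>
      intro a
      obtain ⟨a', ha'⟩ := ih a
      exact ⟨d m a', by rw [hμd, ha']⟩
  refine ⟨R, instR, ?_, ?_, ?_⟩
  · intro r
    obtain ⟨n, a, rfl⟩ := hR r
    obtain ⟨c, hc, hca⟩ := A_regular _ a.1 a.2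
    refine ⟨μ n ⟨c, hc⟩, ?_⟩
    rw [← map_mul, ← map_mul]
    congr 1
    exact Subtype.ext hca
  · intro S _ f hf
    by_cases hinj : Function.Injective f
    · -- the ring itself
      intro x y hxy
      obtain ⟨x, rfl⟩ := hf x
      obtain ⟨y, rfl⟩ := hf y
      rw [← map_mul, ← map_one f] at hxy
      have hxy' := hinj hxy
      obtain ⟨n, a, rfl⟩ := hR x
      obtain ⟨m, b, rfl⟩ := hR y
      obtain ⟨a', ha'⟩ := hlift n (max n m) (le_max_left _ _) a
      obtain ⟨b', hb'⟩ := hlift m (max n m) (le_max_right _ _) b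
      rw [← ha', ← hb', ← map_mul, ← map_one (μ (max n m))] at hxy'
      have h1 := hμ _ hxy'
      have h2 := A_dirfin _ a'.1 b'.1 a'.2 (congrArg Subtype.val h1)
      have h3 : b' * a' = 1 := Subtype.ext h2
      rw [← ha', ← hb', ← map_mul, ← map_mul, h3, map_one, map_one]
    · -- proper images are commutative
      rw [injective_iff_map_eq_zero] at hinj
      push Not at hinj
      obtain ⟨r, hr, hr0⟩ := hinj
      obtain ⟨n, a, rfl⟩ := hR r
      have ha0 : a ≠ 0 := by
        rintro rfl
        exact hr0 (map_zero _)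
      have hcomm : ∀ x y : R, f (x * y - y * x) = 0 := by
        intro x y
        obtain ⟨k, x', rfl⟩ := hR x
        obtain ⟨l, y', rfl⟩ := hR y
        let N := max n (max k l)
        obtain ⟨a1, ha1⟩ := hlift n N (le_max_left _ _) a
        obtain ⟨x1, hx1⟩ := hlift k N (le_trans (le_max_left _ _) (le_max_right _ _)) x'
        obtain ⟨y1, hy1⟩ := hlift l N (le_trans (le_max_right _ _) (le_max_right _ _)) y'
        have ha1' : (a1.1 : Module.End F ((lev N).ι → RatFunc F)) ≠ 0 := by
          intro h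
          apply ha0
          apply hμ n
          rw [← ha1, map_zero]
          have : a1 = 0 := Subtype.ext h
          rw [this, map_zero]
        obtain ⟨g1, g2⟩ := good_dm (lev N).s a1.1 ha1'
        have hk := kill (s := (lev (N + 1)).s) (f.comp (μ (N + 1))) (d N a1) g1 g2
          (by rw [RingHom.comp_apply, hμd, ha1]; exact hr)
          (d N x1 * d N y1 - d N y1 * d N x1) (comm_FR _ _)
        rw [RingHom.comp_apply, map_sub, map_mul, map_mul, hμd, hμd, hx1, hy1] at hk
        exact hk
      intro x y hxy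
      obtain ⟨x, rfl⟩ := hf x
      obtain ⟨y, rfl⟩ := hf y
      have := hcomm x y
      rw [map_sub, map_mul, map_mul, sub_eq_zero] at this
      rw [← this, hxy]
  · refine ⟨μ 0 ⟨T _ RatFunc.X, T_mem _ _⟩, fun u hu => ?_⟩
    have hT : ∀ n, μ n ⟨T _ RatFunc.X, T_mem _ _⟩ =
        μ 0 ⟨T (F := F) (lev 0).ι RatFunc.X, T_mem _ _⟩ := by
      intro n
      induction n with
      | zero => rfl
      | succ n ih =>
        have e : (⟨T _ RatFunc.X, T_mem _ _⟩ : Am (n + 1)) = d n ⟨T _ RatFunc.X, T_mem _ _⟩ := rfl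
        rw [e, hμd, ih]
    obtain ⟨n, a, ha⟩ := hR (u : R)
    obtain ⟨m, b, hb⟩ := hR ((u⁻¹ : Rˣ) : R)
    obtain ⟨a', ha'⟩ := hlift n (max n m) (le_max_left _ _) a
    obtain ⟨b', hb'⟩ := hlift m (max n m) (le_max_right _ _) b
    rw [ha] at ha'
    rw [hb] at hb'
    have h1 : a' * b' = 1 := by
      apply hμ
      rw [map_mul, ha', hb', map_one, Units.mul_inv]
    have h2 : b' * a' = 1 := by
      apply hμ
      rw [map_mul, ha', hb', map_one, Units.inv_mul]
    have h3 : (⟨T _ RatFunc.X, T_mem _ _⟩ : Am (max n m)) * a' * ⟨T _ RatFunc.X, T_mem _ _⟩ =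
        ⟨T _ RatFunc.X, T_mem _ _⟩ := by
      apply hμ
      rw [map_mul, map_mul, ha', hT, hu]
    have := no_unit (lev (max n m)).s a'.1 b'.1 a'.2.1 b'.2.1 (congrArg Subtype.val h1)
      (congrArg Subtype.val h2) (congrArg Subtype.val h3)
    rw [del_lev] at this
    exact one_ne_zero this

end Pool.Agent.Y73.UR
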