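import Mathlib

set_option autoImplicit false

namespace Pool.Agent.Y73.UR

open Polynomial

section
variable (F : Type) [Field F]

/-- the polynomials inside the rational functions -/
noncomputable def X0 : Submodule F (RatFunc F) :=
  LinearMap.range (IsScalarTower.toAlgHom F F[X] (RatFunc F)).toLinearMap

/-- the proper rational functions -/
noncomputable def X1 : Submodule F (RatFunc F) where
  carrier := {f | f = 0 ∨ f.intDegree < 0}
  zero_mem' := Or.inl rfl
  add_mem' := by
    rintro a b ha hb
    by_cases hb0 : b = 0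
    · subst hb0; simpa using ha
    by_cases hab : a + b = 0
    · exact Or.inl hab
    by_cases ha0 : a = 0
    · subst ha0; simpa using hb
    right
    have h1 : a.intDegree < 0 := ha.resolve_left ha0
    have h2 : b.intDegree < 0 := hb.resolve_left hb0
    have := RatFunc.intDegree_add_le hb0 hab
    have h3 : max a.intDegree b.intDegree < 0 := max_lt h1 h2
    omega
  smul_mem' := by
    intro c a ha
    by_cases hc : c = 0
    · subst hc; left; simp
    by_cases ha0 : a = 0
    · subst ha0; left; simp
    right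
    have h1 : a.intDegree < 0 := ha.resolve_left ha0
    rw [RatFunc.smul_eq_C_mul, RatFunc.intDegree_mul (by simpa using hc) ha0, RatFunc.intDegree_C]
    omega

variable {F}

theorem mem_X0 {f : RatFunc F} : f ∈ X0 F ↔ ∃ p : F[X], algebraMap F[X] (RatFunc F) p = f := by
  simp [X0, LinearMap.mem_range]

theorem mem_X1 {f : RatFunc F} : f ∈ X1 F ↔ f = 0 ∨ f.intDegree < 0 := Iff.rfl

theorem intDegree_algebraMap (p : F[X]) :
    (algebraMap F[X] (RatFunc F) p).intDegree = p.natDegree := RatFunc.intDegree_polynomial

/-- division with remainder -/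
theorem split_div (p q : F[X]) (hq : q.Monic) :
    ∃ r : F[X], (r = 0 ∨ r.degree < q.degree) ∧
      (algebraMap F[X] (RatFunc F) p) / algebraMap F[X] (RatFunc F) q =
        algebraMap F[X] (RatFunc F) (p /ₘ q) +
          algebraMap F[X] (RatFunc F) r / algebraMap F[X] (RatFunc F) q := by
  refine ⟨p %ₘ q, ?_, ?_⟩
  · by_cases h : p %ₘ q = 0
    · exact Or.inl h
    · right
      exact degree_modByMonic_lt p hq
  · have hq0 : algebraMap F[X] (RatFunc F) q ≠ 0 := by
      simpa using hq.ne_zero
    field_simp
    rw [← map_mul, ← map_add]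
    congr 1
    have := modByMonic_add_div p q
    rw [add_comm]
    exact this.symm

theorem proper_of_degree_lt {r q : F[X]} (hq : q ≠ 0) (h : r = 0 ∨ r.degree < q.degree) :
    algebraMap F[X] (RatFunc F) r / algebraMap F[X] (RatFunc F) q ∈ X1 F := by
  rcases h with rfl | h
  · left; simp
  by_cases hr : r = 0
  · subst hr; left; simp
  right
  have hr' : algebraMap F[X] (RatFunc F) r ≠ 0 := by simpa using hr
  have hq' : algebraMap F[X] (RatFunc F) q ≠ 0 := by simpa using hq
  rw [RatFunc.intDegree_div hr' hq', intDegree_algebraMap, intDegree_algebraMap]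
  have := natDegree_lt_natDegree hr h
  omega

theorem isCompl : IsCompl (X0 F) (X1 F) := by
  refine isCompl_iff.2 ⟨?_, ?_⟩
  · rw [Submodule.disjoint_def]
    intro f h0 h1
    obtain ⟨p, rfl⟩ := mem_X0.1 h0
    rcases h1 with h | h
    · exact h
    · rw [intDegree_algebraMap] at h
      omega
  · rw [codisjoint_iff, Submodule.eq_top_iff']
    intro f
    obtain ⟨r, hr, h⟩ := split_div f.num f.denom (RatFunc.monic_denom f)
    rw [RatFunc.num_div_denom] at h
    rw [h]
    exact Submodule.add_mem_sup (mem_X0.2 ⟨_, rfl⟩)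
      (proper_of_degree_lt f.denom_ne_zero hr)

/-- polynomial part -/
noncomputable def P : Module.End F (RatFunc F) := (X0 F).projection (X1 F) isCompl

theorem P_mem (f : RatFunc F) : P f ∈ X0 F := Submodule.projection_apply_mem _ _

theorem P_of_mem {f : RatFunc F} (h : f ∈ X0 F) : P f = f :=
  Submodule.projection_apply_of_mem_left _ h

theorem P_zero_iff {f : RatFunc F} : P f = 0 ↔ f ∈ X1 F :=
  Submodule.projection_apply_eq_zero_iff _

theorem P_idem (f : RatFunc F) : P (P f) = P f := P_of_mem (P_mem f)

theorem sub_P_mem (f : RatFunc F) : f - P f ∈ X1 F := Submodule.sub_projection_mem _ _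

theorem P_poly (p : F[X]) : P (algebraMap F[X] (RatFunc F) p) = algebraMap F[X] (RatFunc F) p :=
  P_of_mem (mem_X0.2 ⟨p, rfl⟩)

end

/-- finite rank -/
def FR {F U V : Type} [Field F] [AddCommGroup U] [Module F U] [AddCommGroup V] [Module F V]
    (φ : U →ₗ[F] V) : Prop :=
  FiniteDimensional F (LinearMap.range φ)

section FR
variable {F U V W : Type} [Field F] [AddCommGroup U] [Module F U] [AddCommGroup V] [Module F V]
  [AddCommGroup W] [Module F W]

theorem FR.of_le {φ : U →ₗ[F] V} (Y : Submodule F V) [FiniteDimensional F Y] (h : ∀ u, φ u ∈ Y) :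
    FR φ := by
  have : LinearMap.range φ ≤ Y := by
    rintro _ ⟨u, rfl⟩; exact h u
  exact Submodule.finiteDimensional_of_le this

theorem FR.zero : FR (0 : U →ₗ[F] V) := FR.of_le ⊥ (by simp)

theorem FR.add {φ ψ : U →ₗ[F] V} (h1 : FR φ) (h2 : FR ψ) : FR (φ + ψ) := by
  have : FiniteDimensional F (LinearMap.range φ) := h1
  have : FiniteDimensional F (LinearMap.range ψ) := h2
  exact FR.of_le (LinearMap.range φ ⊔ LinearMap.range ψ)
    fun u => Submodule.add_mem_sup ⟨u, rfl⟩ ⟨u, rfl⟩

theorem FR.neg {φ : U →ₗ[F] V} (h1 : FR φ) : FR (-φ) := by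
  have : FiniteDimensional F (LinearMap.range φ) := h1
  exact FR.of_le (LinearMap.range φ) fun u => ⟨-u, by simp⟩

theorem FR.sub {φ ψ : U →ₗ[F] V} (h1 : FR φ) (h2 : FR ψ) : FR (φ - ψ) := by
  rw [sub_eq_add_neg]; exact h1.add h2.neg

theorem FR.comp_left {φ : U →ₗ[F] V} (h1 : FR φ) (ψ : V →ₗ[F] W) : FR (ψ ∘ₗ φ) := by
  have : FiniteDimensional F (LinearMap.range φ) := h1
  exact FR.of_le ((LinearMap.range φ).map ψ) fun u => ⟨φ u, ⟨u, rfl⟩, rfl⟩

theorem FR.comp_right {φ : V →ₗ[F] W} (h1 : FR φ) (ψ : U →ₗ[F] V) : FR (φ ∘ₗ ψ) := by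
  have : FiniteDimensional F (LinearMap.range φ) := h1
  exact FR.of_le (LinearMap.range φ) fun u => ⟨ψ u, rfl⟩

theorem FR.sum {ι : Type} (s : Finset ι) (φ : ι → U →ₗ[F] V) (h : ∀ i ∈ s, FR (φ i)) :
    FR (∑ i ∈ s, φ i) := by
  classical
  induction s using Finset.induction_on with
  | empty => simpa using FR.zero
  | insert a s ha ih =>
    rw [Finset.sum_insert ha]
    exact (h a (Finset.mem_insert_self a s)).add (ih fun i hi => h i (Finset.mem_insert_of_mem hi))

theorem FR.mul_left {φ : Module.End F U} (h1 : FR φ) (ψ : Module.End F U) : FR (ψ * φ) :=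
  h1.comp_left ψ

theorem FR.mul_right {φ : Module.End F U} (h1 : FR φ) (ψ : Module.End F U) : FR (φ * ψ) :=
  h1.comp_right ψ

/-- a surjective finite rank perturbation of the identity is injective -/
theorem inj_of_surj {θ : Module.End F U} (hθ : FR θ)
    (hs : Function.Surjective ((1 + θ : Module.End F U) : U → U)) :
    Function.Injective ((1 + θ : Module.End F U) : U → U) := by
  have : FiniteDimensional F (LinearMap.range θ) := hθ
  have hmap : ∀ w ∈ LinearMap.range θ, (1 + θ : Module.End F U) w ∈ LinearMap.range θ := by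
    rintro _ ⟨u, rfl⟩
    exact ⟨u + θ u, by simp⟩
  let g := LinearMap.restrict (1 + θ : Module.End F U) hmap
  have hg : Function.Surjective g := by
    rintro ⟨w, hw⟩
    obtain ⟨u, hu⟩ := hs w
    have hu' : u + θ u = w := hu
    have : u ∈ LinearMap.range θ := by
      have : u = w - θ u := by rw [← hu']; abel
      rw [this]
      exact Submodule.sub_mem _ hw ⟨u, rfl⟩
    exact ⟨⟨u, this⟩, Subtype.ext hu⟩
  have hgi : Function.Injective g := LinearMap.injective_iff_surjective.2 hg
  rw [← LinearMap.ker_eq_bot, Submodule.eq_bot_iff]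
  intro u hu
  have hu' : u + θ u = 0 := hu
  have hmem : u ∈ LinearMap.range θ := ⟨-u, by
    rw [map_neg]; exact (eq_neg_of_add_eq_zero_left hu').symm⟩
  have : (⟨u, hmem⟩ : LinearMap.range θ) = 0 := by
    apply hgi
    rw [map_zero]
    exact Subtype.ext hu'
  exact congrArg Subtype.val this

/-- every endomorphism has a quasi-inverse -/
theorem exists_quasi (b : Module.End F U) : ∃ c : Module.End F U, b * c * b = b := by
  obtain ⟨g, hg⟩ := b.rangeRestrict.exists_rightInverse_of_surjective b.range_rangeRestrict
  obtain ⟨π, hπ⟩ := (LinearMap.range b).subtype.exists_leftInverse_of_injective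
    (Submodule.ker_subtype _)
  refine ⟨g ∘ₗ π, ?_⟩
  ext u
  have h1 : π (b u) = b.rangeRestrict u := LinearMap.congr_fun hπ (b.rangeRestrict u)
  have h2 : b.rangeRestrict (g (b.rangeRestrict u)) = b.rangeRestrict u :=
    LinearMap.congr_fun hg _
  have h3 := congrArg Subtype.val h2
  simp only [Module.End.mul_apply, LinearMap.comp_apply]
  rw [h1]
  exact h3

end FR

section
variable {F : Type} [Field F]

/-- polynomials of degree `< n` in the rational functions -/
noncomputable def W (n : ℕ) (q : RatFunc F) : Submodule F (RatFunc F) :=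
  (degreeLT F n).map ((LinearMap.mulRight F q) ∘ₗ (IsScalarTower.toAlgHom F F[X] (RatFunc F)).toLinearMap)

instance (n : ℕ) (q : RatFunc F) : FiniteDimensional F (W n q) := by
  unfold W
  have : Module.Finite F (degreeLT F n) := Module.Finite.equiv (degreeLTEquiv F n).symm
  infer_instance

theorem mem_W (n : ℕ) (q : RatFunc F) (r : F[X]) (h : r ∈ degreeLT F n) :
    algebraMap F[X] (RatFunc F) r * q ∈ W n q := ⟨r, h, rfl⟩

/-- multiplication by a rational function -/
noncomputable def mu (a : RatFunc F) : Module.End F (RatFunc F) := LinearMap.mulLeft F a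

@[simp] theorem mu_apply (a f : RatFunc F) : mu a f = a * f := rfl

theorem FR_comm (a : RatFunc F) : FR (mu a * P - P * mu a) := by
  have h : mu a * P - P * mu a = (1 - P) * mu a * P - P * mu a * (1 - P) := by
    noncomm_ring
  rw [h]
  refine FR.sub ?_ ?_
  · -- polynomials to proper fractions with a fixed denominator
    refine FR.of_le (W a.denom.natDegree (algebraMap F[X] (RatFunc F) a.denom)⁻¹) fun f => ?_
    obtain ⟨p, hp⟩ := mem_X0.1 (P_mem f)
    have e : ((1 - P) * mu a * P : Module.End F (RatFunc F)) f = a * P f - P (a * P f) := rfl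
    rw [e, ← hp]
    obtain ⟨r, hr, h⟩ := split_div (a.num * p) a.denom (RatFunc.monic_denom a)
    have e2 : a * algebraMap F[X] (RatFunc F) p = algebraMap F[X] (RatFunc F) (a.num * p) /
        algebraMap F[X] (RatFunc F) a.denom := by
      conv_lhs => rw [← RatFunc.num_div_denom a]
      rw [map_mul]; ring
    rw [e2, h, map_add, P_poly, P_zero_iff.2 (proper_of_degree_lt a.denom_ne_zero hr), add_zero,
      add_sub_cancel_left, div_eq_mul_inv]
    apply mem_W
    rw [mem_degreeLT]
    rcases hr with rfl | hr
    · rw [degree_zero]; exact WithBot.bot_lt_coe _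
    · rw [degree_eq_natDegree a.denom_ne_zero] at hr
      exact hr
  · -- proper fractions to polynomials of bounded degree
    refine FR.of_le (W (a.intDegree.toNat) 1) fun f => ?_
    have e : (P * mu a * (1 - P) : Module.End F (RatFunc F)) f = P (a * (f - P f)) := rfl
    rw [e]
    have hf := sub_P_mem f
    generalize f - P f = g at hf
    obtain ⟨p, hp⟩ := mem_X0.1 (P_mem (a * g))
    rw [← hp]
    rw [← mul_one (algebraMap F[X] (RatFunc F) p)]
    apply mem_W
    rw [mem_degreeLT]
    by_cases hp0 : p = 0
    · subst hp0; rw [degree_zero]; exact WithBot.bot_lt_coe _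
    rw [degree_eq_natDegree hp0, Nat.cast_lt]
    have hp1 : algebraMap F[X] (RatFunc F) p ≠ 0 := by simpa using hp0
    by_cases ha : a = 0
    · subst ha
      rw [zero_mul, map_zero] at hp
      exact absurd hp hp1
    by_cases hg : g = 0
    · subst hg
      rw [mul_zero, map_zero] at hp
      exact absurd hp hp1
    have hg1 : g.intDegree < 0 := hf.resolve_left hg
    have hag : (a * g).intDegree < a.intDegree := by
      rw [RatFunc.intDegree_mul ha hg]; omega
    -- P (a g) = a g - (1 - P)(a g)
    have hs := sub_P_mem (a * g)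
    rw [← hp] at hs
    generalize hk : a * g - algebraMap F[X] (RatFunc F) p = k at hs
    have hpk : algebraMap F[X] (RatFunc F) p = a * g + (-k) := by rw [← hk]; ring
    by_cases hk0 : k = 0
    · rw [hk0, neg_zero, add_zero] at hpk
      have := congrArg RatFunc.intDegree hpk
      rw [intDegree_algebraMap] at this
      omega
    have hk1 : k.intDegree < 0 := hs.resolve_left hk0
    have h2 := RatFunc.intDegree_add_le (x := a * g) (y := -k) (by simpa using hk0)
      (by rw [← hpk]; exact hp1)
    rw [← hpk, intDegree_algebraMap, RatFunc.intDegree_neg] at h2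
    rcases le_max_iff.1 h2 with h3 | h3
    · omega
    · omega

end

end Pool.Agent.Y73.UR
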