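import Pool.Agent.Y73.UR.Level

set_option autoImplicit false
set_option linter.unusedSectionVars false

namespace Pool.Agent.Y73.UR

open Polynomial

section abs
variable {F V : Type} [Field F] [AddCommGroup V] [Module F V]

/-- an operator with an invertible quasi-inverse has kernel and cokernel of the same dimension -/
theorem finrank_ker_eq_coker (a u v : Module.End F V) (huv : u * v = 1) (hvu : v * u = 1)
    (h : a * u * a = a) :
    Module.finrank F (LinearMap.ker a) = Module.finrank F (V ⧸ LinearMap.range a) := by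
  have hid : IsIdempotentElem (u * a) := by
    show u * a * (u * a) = u * a
    rw [mul_assoc, ← mul_assoc a u a, h]
  have hc := LinearMap.IsIdempotentElem.isCompl hid
  have hker : LinearMap.ker (u * a) = LinearMap.ker a := by
    ext x
    rw [LinearMap.mem_ker, LinearMap.mem_ker, Module.End.mul_apply]
    constructor
    · intro hx
      have := congrArg v hx
      rw [← Module.End.mul_apply, hvu, map_zero] at this
      exact this
    · intro hx; rw [hx, map_zero]
  let e : V ≃ₗ[F] V := LinearEquiv.ofLinearMap u v huv hvu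
  have hmap : (LinearMap.range a).map (e : V →ₗ[F] V) = LinearMap.range (u * a) := by
    ext x
    simp only [Submodule.mem_map, LinearMap.mem_range, exists_exists_eq_and]
    rfl
  let q := Submodule.Quotient.equiv (LinearMap.range a) (LinearMap.range (u * a)) e hmap
  let q2 := Submodule.quotientEquivOfIsCompl (LinearMap.range (u * a)) (LinearMap.ker (u * a)) hc
  rw [← hker]
  exact (q.trans q2).finrank_eq.symm

end abs

section K
variable {F : Type} [Field F]

theorem algMap_inj : Function.Injective
    (IsScalarTower.toAlgHom F F[X] (RatFunc F)).toLinearMap := by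
  intro p q h
  exact IsFractionRing.injective F[X] (RatFunc F) h

/-- the polynomial part, as a polynomial -/
noncomputable def pol : RatFunc F →ₗ[F] F[X] :=
  (LinearEquiv.ofInjective _ algMap_inj).symm.toLinearMap ∘ₗ
    (X0 F).projectionOnto (X1 F) isCompl

theorem pol_spec (f : RatFunc F) : algebraMap F[X] (RatFunc F) (pol f) = P f := by
  have := (LinearEquiv.ofInjective _ (algMap_inj (F := F))).apply_symm_apply
    ((X0 F).projectionOnto (X1 F) isCompl f)
  exact congrArg Subtype.val this

/-- value at zero of the polynomial part -/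
noncomputable def e0 : RatFunc F →ₗ[F] F := (lcoeff F 0) ∘ₗ pol

theorem e0_poly (p : F[X]) : e0 (algebraMap F[X] (RatFunc F) p) = p.coeff 0 := by
  have h : pol (algebraMap F[X] (RatFunc F) p) = p := by
    apply IsFractionRing.injective F[X] (RatFunc F)
    rw [pol_spec, P_poly]
  show (pol (algebraMap F[X] (RatFunc F) p)).coeff 0 = _
  rw [h]

theorem tb_of_X0 {f : RatFunc F} (hf : P f = f) : tb RatFunc.X f = RatFunc.X * f := by
  have e : tb RatFunc.X f = P (RatFunc.X * P f) +
    (RatFunc.X * (f - P f) - P (RatFunc.X * (f - P f))) := rfl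
  rw [e, hf, sub_self, mul_zero, map_zero, sub_zero, add_zero]
  have hm : f ∈ X0 F := by rw [← hf]; exact P_mem f
  obtain ⟨p, rfl⟩ := mem_X0.1 hm
  apply P_of_mem
  exact mem_X0.2 ⟨X * p, by rw [map_mul, RatFunc.algebraMap_X]⟩

theorem tb_of_X1 {f : RatFunc F} (hf : P f = 0) :
    tb RatFunc.X f = RatFunc.X * f - P (RatFunc.X * f) := by
  have e : tb RatFunc.X f = P (RatFunc.X * P f) +
    (RatFunc.X * (f - P f) - P (RatFunc.X * (f - P f))) := rfl
  rw [e, hf, sub_zero, mul_zero, map_zero, zero_add]

theorem K1 {f : RatFunc F} (hf : P f = f) (h : tb RatFunc.X f = 0) : f = 0 := by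
  rw [tb_of_X0 hf] at h
  exact (mul_eq_zero.1 h).resolve_left RatFunc.X_ne_zero

theorem PXinv (c : F) : P (c • (RatFunc.X : RatFunc F)⁻¹) = 0 := by
  rw [map_smul, P_zero_iff.2, smul_zero]
  right
  rw [RatFunc.intDegree_inv, RatFunc.intDegree_X]
  norm_num

theorem K2 {f : RatFunc F} (hf : P f = 0) :
    tb RatFunc.X f = 0 ↔ ∃ c : F, f = c • (RatFunc.X : RatFunc F)⁻¹ := by
  rw [tb_of_X1 hf, sub_eq_zero]
  constructor
  · intro h
    have hm : RatFunc.X * f ∈ X0 F := by rw [h]; exact P_mem _
    obtain ⟨p, hp⟩ := mem_X0.1 hm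
    have hfp : f = algebraMap F[X] (RatFunc F) p * (RatFunc.X)⁻¹ := by
      rw [hp]; field_simp [RatFunc.X_ne_zero]
    rcases P_zero_iff.1 hf with h0 | h0
    · exact ⟨0, by rw [h0, zero_smul]⟩
    · by_cases hp0 : p = 0
      · refine ⟨0, ?_⟩
        rw [hfp, hp0, map_zero, zero_mul, zero_smul]
      · have h1 : (algebraMap F[X] (RatFunc F) p) ≠ 0 := by simpa using hp0
        rw [hfp, RatFunc.intDegree_mul h1 (inv_ne_zero RatFunc.X_ne_zero), intDegree_algebraMap,
          RatFunc.intDegree_inv, RatFunc.intDegree_X] at h0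
        have h2 : p.natDegree = 0 := by omega
        obtain ⟨c, rfl⟩ := natDegree_eq_zero.1 h2
        refine ⟨c, ?_⟩
        rw [hfp, RatFunc.smul_eq_C_mul, RatFunc.algebraMap_C]
  · rintro ⟨c, rfl⟩
    have : RatFunc.X * (c • (RatFunc.X : RatFunc F)⁻¹) = algebraMap F[X] (RatFunc F) (C c) := by
      rw [RatFunc.smul_eq_C_mul, RatFunc.algebraMap_C]
      field_simp [RatFunc.X_ne_zero]
    rw [this, P_poly]

theorem K3 {f : RatFunc F} (hf : P f = f) :
    e0 f = 0 ↔ ∃ g, P g = g ∧ tb RatFunc.X g = f := by
  have hm : f ∈ X0 F := by rw [← hf]; exact P_mem f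
  obtain ⟨p, rfl⟩ := mem_X0.1 hm
  rw [e0_poly]
  constructor
  · intro h
    obtain ⟨q, rfl⟩ := X_dvd_iff.2 h
    refine ⟨algebraMap F[X] (RatFunc F) q, P_poly q, ?_⟩
    rw [tb_of_X0 (P_poly q), map_mul, RatFunc.algebraMap_X]
  · rintro ⟨g, hg, h⟩
    have hm : g ∈ X0 F := by rw [← hg]; exact P_mem g
    obtain ⟨q, rfl⟩ := mem_X0.1 hm
    rw [tb_of_X0 hg, ← RatFunc.algebraMap_X, ← map_mul] at h
    have := IsFractionRing.injective F[X] (RatFunc F) h
    rw [← this]
    simp

theorem K4 {f : RatFunc F} (hf : P f = 0) : ∃ g, P g = 0 ∧ tb RatFunc.X g = f := by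
  refine ⟨(RatFunc.X)⁻¹ * f, ?_, ?_⟩
  · rw [P_zero_iff] at hf ⊢
    rcases hf with rfl | hf
    · left; rw [mul_zero]
    · by_cases hf0 : f = 0
      · left; rw [hf0, mul_zero]
      · right
        rw [RatFunc.intDegree_mul (inv_ne_zero RatFunc.X_ne_zero) hf0, RatFunc.intDegree_inv,
          RatFunc.intDegree_X]
        omega
  · have h1 : P ((RatFunc.X)⁻¹ * f) = 0 := by
      rw [P_zero_iff] at hf ⊢
      rcases hf with rfl | hf
      · left; rw [mul_zero]
      · by_cases hf0 : f = 0
        · left; rw [hf0, mul_zero]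
        · right
          rw [RatFunc.intDegree_mul (inv_ne_zero RatFunc.X_ne_zero) hf0, RatFunc.intDegree_inv,
            RatFunc.intDegree_X]
          omega
    rw [tb_of_X1 h1, mul_inv_cancel_left₀ RatFunc.X_ne_zero, hf, sub_zero]

end K

section idx
variable {F : Type} [Field F] {ι : Type} [Fintype ι] [DecidableEq ι]

theorem mem_range_PS {s : ι → Bool} {f : ι → RatFunc F} :
    f ∈ LinearMap.range (PS s : Module.End F (ι → RatFunc F)) ↔
      ∀ i, (s i = false → P (f i) = f i) ∧ (s i = true → P (f i) = 0) := by
  constructor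
  · rintro ⟨g, rfl⟩ i
    constructor
    · intro hs
      have : (PS s : Module.End F (ι → RatFunc F)) g i = P (g i) := by
        simp [PS, Pb, hs]
      rw [this, P_idem]
    · intro hs
      have : (PS s : Module.End F (ι → RatFunc F)) g i = g i - P (g i) := by
        simp [PS, Pb, hs]
      rw [this, map_sub, P_idem, sub_self]
  · intro h
    refine ⟨f, ?_⟩
    funext i
    cases hs : s i
    · have : (PS s : Module.End F (ι → RatFunc F)) f i = P (f i) := by
        simp [PS, Pb, hs]
      rw [this, (h i).1 hs]
    · have : (PS s : Module.End F (ι → RatFunc F)) f i = f i - P (f i) := by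
        simp [PS, Pb, hs]
      rw [this, (h i).2 hs, sub_zero]

/-- the signed number of blocks -/
def del (s : ι → Bool) : ℤ := ∑ i, if s i then -1 else 1

theorem del_sn (s : ι → Bool) : del (sn s) = del s := by
  unfold del
  rw [Fintype.sum_prod_type]
  refine Finset.sum_congr rfl fun i _ => ?_
  rw [Fin.sum_univ_three]
  cases h : s i <;> simp [sn, h]

theorem no_unit (s : ι → Bool) (u v : Module.End F (ι → RatFunc F))
    (hu : u * PS s = PS s * u) (hv : v * PS s = PS s * v) (huv : u * v = 1) (hvu : v * u = 1)
    (h : T ι RatFunc.X * u * T ι RatFunc.X = T ι RatFunc.X) : del s = 0 := by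
  have hst : ∀ b : Module.End F (ι → RatFunc F), b * PS s = PS s * b →
      ∀ f ∈ LinearMap.range (PS s : Module.End F (ι → RatFunc F)),
      b f ∈ LinearMap.range (PS s : Module.End F (ι → RatFunc F)) := by
    rintro b hb _ ⟨g, rfl⟩
    exact ⟨b g, by rw [← Module.End.mul_apply, ← hb]; rfl⟩
  have hT := T_comm_PS (F := F) s RatFunc.X
  let V := LinearMap.range (PS s : Module.End F (ι → RatFunc F))
  let a' : Module.End F V := LinearMap.restrict (T ι RatFunc.X) (hst _ hT)
  let u' : Module.End F V := LinearMap.restrict u (hst _ hu)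
  let v' : Module.End F V := LinearMap.restrict v (hst _ hv)
  have h1 : u' * v' = 1 := by
    refine LinearMap.ext fun x => Subtype.ext ?_
    exact LinearMap.congr_fun huv x.1
  have h2 : v' * u' = 1 := by
    refine LinearMap.ext fun x => Subtype.ext ?_
    exact LinearMap.congr_fun hvu x.1
  have h3 : a' * u' * a' = a' := by
    refine LinearMap.ext fun x => Subtype.ext ?_
    exact LinearMap.congr_fun h x.1
  have key := finrank_ker_eq_coker a' u' v' h1 h2 h3
  -- kernel
  have hk : Module.finrank F (LinearMap.ker a') = Fintype.card {i // s i = true} := by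
    let Φ : ({i // s i = true} → F) →ₗ[F] V :=
      { toFun := fun c => ⟨fun i => if hi : s i = true then c ⟨i, hi⟩ • (RatFunc.X)⁻¹ else 0, by
          rw [mem_range_PS]
          intro i
          constructor
          · intro hs
            rw [dif_neg (by simp [hs]), map_zero]
          · intro hs
            rw [dif_pos hs, PXinv]⟩
        map_add' := by
          intro c d
          apply Subtype.ext
          funext i
          by_cases hi : s i = true
          · simp [hi, add_smul]
          · simp [hi]
        map_smul' := by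
          intro r c
          apply Subtype.ext
          funext i
          by_cases hi : s i = true
          · simp [hi, mul_smul]
          · simp [hi] }
    have hΦ : Function.Injective Φ := by
      intro c d hcd
      funext ⟨i, hi⟩
      have := congrFun (congrArg Subtype.val hcd) i
      have h4 : c ⟨i, hi⟩ • (RatFunc.X : RatFunc F)⁻¹ = d ⟨i, hi⟩ • (RatFunc.X : RatFunc F)⁻¹ := by
        simpa [Φ, hi] using this
      exact smul_left_injective F (inv_ne_zero RatFunc.X_ne_zero) h4
    have hrange : LinearMap.range Φ = LinearMap.ker a' := by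
      ext ⟨f, hf⟩
      rw [LinearMap.mem_ker, LinearMap.mem_range]
      constructor
      · rintro ⟨c, hc⟩
        apply Subtype.ext
        funext i
        have hci := congrFun (congrArg Subtype.val hc) i
        show tb RatFunc.X (f i) = 0
        by_cases hi : s i = true
        · have h5 : c ⟨i, hi⟩ • (RatFunc.X : RatFunc F)⁻¹ = f i := by simpa [Φ, hi] using hci
          rw [← h5]
          exact (K2 (PXinv _)).2 ⟨_, rfl⟩
        · have h5 : 0 = f i := by simpa [Φ, hi] using hci
          rw [← h5, map_zero]
      · intro h6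
        have h7 : ∀ i, tb RatFunc.X (f i) = 0 := fun i => congrFun (congrArg Subtype.val h6) i
        have hf' := mem_range_PS.1 hf
        have h8 : ∀ i : {i // s i = true}, ∃ c : F, f i.1 = c • (RatFunc.X : RatFunc F)⁻¹ :=
          fun i => (K2 ((hf' i.1).2 i.2)).1 (h7 i.1)
        choose c hc using h8
        refine ⟨c, Subtype.ext (funext fun i => ?_)⟩
        by_cases hi : s i = true
        · have : (Φ c).1 i = c ⟨i, hi⟩ • (RatFunc.X : RatFunc F)⁻¹ := by simp [Φ, hi]
          rw [this, ← hc ⟨i, hi⟩]
        · have : (Φ c).1 i = 0 := by simp [Φ, hi]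
          rw [this]
          exact (K1 ((hf' i).1 (by simpa using hi)) (h7 i)).symm
    rw [← hrange, LinearMap.finrank_range_of_inj hΦ, Module.finrank_pi]
  -- cokernel
  have hc : Module.finrank F (V ⧸ LinearMap.range a') = Fintype.card {i // s i = false} := by
    let Ψ : V →ₗ[F] ({i // s i = false} → F) :=
      LinearMap.pi fun i => e0 ∘ₗ (LinearMap.proj i.1) ∘ₗ V.subtype
    have hΨ : Function.Surjective Ψ := by
      intro c
      refine ⟨⟨fun i => if hi : s i = false then algebraMap F[X] (RatFunc F) (C (c ⟨i, hi⟩))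
        else 0, ?_⟩, ?_⟩
      · rw [mem_range_PS]
        intro i
        constructor
        · intro hs
          rw [dif_pos hs, P_poly]
        · intro hs
          rw [dif_neg (by simp [hs]), map_zero]
      · funext ⟨i, hi⟩
        show e0 (if hi : s i = false then algebraMap F[X] (RatFunc F) (C (c ⟨i, hi⟩)) else 0) = _
        rw [dif_pos hi, e0_poly, coeff_C_zero]
    have hker : LinearMap.ker Ψ = LinearMap.range a' := by
      ext ⟨f, hf⟩
      rw [LinearMap.mem_ker, LinearMap.mem_range]
      have hf' := mem_range_PS.1 hf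
      constructor
      · intro h6
        have h7 : ∀ i, s i = false → e0 (f i) = 0 := fun i hi => congrFun h6 ⟨i, hi⟩
        have h8 : ∀ i, ∃ g, ((s i = false → P g = g) ∧ (s i = true → P g = 0)) ∧
            tb RatFunc.X g = f i := by
          intro i
          cases hs : s i
          · obtain ⟨g, hg1, hg2⟩ := (K3 ((hf' i).1 hs)).1 (h7 i hs)
            exact ⟨g, ⟨fun _ => hg1, fun h => by simp at h⟩, hg2⟩
          · obtain ⟨g, hg1, hg2⟩ := K4 ((hf' i).2 hs)
            exact ⟨g, ⟨fun h => by simp at h, fun _ => hg1⟩, hg2⟩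
        choose g hg1 hg2 using h8
        exact ⟨⟨g, mem_range_PS.2 hg1⟩, Subtype.ext (funext hg2)⟩
      · rintro ⟨⟨g, hg⟩, hgf⟩
        have hg' := mem_range_PS.1 hg
        funext ⟨i, hi⟩
        show e0 (f i) = 0
        exact (K3 ((hf' i).1 hi)).2 ⟨g i, (hg' i).1 hi, congrFun (congrArg Subtype.val hgf) i⟩
    rw [← hker, (Ψ.quotKerEquivOfSurjective hΨ).finrank_eq, Module.finrank_pi]
  rw [hk, hc] at key
  unfold del
  rw [Finset.sum_ite]
  simp only [Finset.sum_const, nsmul_eq_mul, mul_one, mul_neg]
  rw [Fintype.card_subtype, Fintype.card_subtype] at key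
  have e1 : (Finset.univ.filter fun i => ¬ s i = true) = Finset.univ.filter fun i => s i = false := by
    ext i; simp
  rw [e1, key]
  ring

end idx

end Pool.Agent.Y73.UR
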