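import Pool.Agent.Y73.UR.Ring

set_option autoImplicit false
set_option linter.unusedSectionVars false

namespace Pool.Agent.Y73.UR

open Polynomial

section step
variable {F : Type} [Field F] {ι : Type} [Fintype ι] [DecidableEq ι]

/-- amplification -/
noncomputable def dm : Module.End F (ι → RatFunc F) →+* Module.End F (ι × Fin 3 → RatFunc F) where
  toFun b :=
    { toFun := fun f p => b (fun j => f (j, p.2)) p.1
      map_add' := by
        intro f g
        funext p
        have : (fun j => (f + g) (j, p.2)) = (fun j => f (j, p.2)) + fun j => g (j, p.2) := rfl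
        rw [this, map_add]
        rfl
      map_smul' := by
        intro c f
        funext p
        have : (fun j => (c • f) (j, p.2)) = c • (fun j => f (j, p.2)) := rfl
        rw [this, map_smul]
        rfl }
  map_one' := rfl
  map_mul' _ _ := rfl
  map_zero' := rfl
  map_add' _ _ := rfl

theorem dm_apply (b : Module.End F (ι → RatFunc F)) (f : ι × Fin 3 → RatFunc F) (p : ι × Fin 3) :
    dm b f p = b (fun j => f (j, p.2)) p.1 := rfl

/-- the new sign -/
def sn (s : ι → Bool) : ι × Fin 3 → Bool := fun p => if p.2 = 2 then !(s p.1) else s p.1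

theorem PS_not (s : ι → Bool) : (PS (fun i => !(s i)) : Module.End F (ι → RatFunc F)) = 1 - PS s := by
  unfold PS
  rw [← bd_one, bd_sub]
  congr 1
  funext i
  cases h : s i
  · simp [Pb, h]
  · simp [Pb, h]

theorem PS_sn_apply (s : ι → Bool) (f : ι × Fin 3 → RatFunc F) (c : Fin 3) :
    (fun j => PS (sn s) f (j, c)) =
      (if c = 2 then 1 - PS s else PS s : Module.End F (ι → RatFunc F)) fun j => f (j, c) := by
  by_cases hc : c = 2
  · subst hc
    rw [if_pos rfl, ← PS_not]
    rfl
  · rw [if_neg hc]
    funext j
    simp [PS, sn, hc]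

theorem FR_dm {φ : Module.End F (ι → RatFunc F)} (h : FR φ) : FR (dm φ) := by
  let R : Fin 3 → ((ι × Fin 3 → RatFunc F) →ₗ[F] (ι → RatFunc F)) := fun c =>
    LinearMap.pi fun j => LinearMap.proj (j, c)
  let E : Fin 3 → ((ι → RatFunc F) →ₗ[F] (ι × Fin 3 → RatFunc F)) := fun c =>
    LinearMap.pi fun p => if p.2 = c then LinearMap.proj p.1 else 0
  have : dm φ = ∑ c, E c ∘ₗ φ ∘ₗ R c := by
    refine LinearMap.ext fun f => funext fun p => ?_
    rw [LinearMap.sum_apply, Finset.sum_apply, Finset.sum_eq_single p.2]
    · simp only [E, R, LinearMap.comp_apply, LinearMap.pi_apply, if_true, LinearMap.proj_apply]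
      rw [dm_apply]
      congr 1
    · intro c _ hc
      simp only [E, LinearMap.comp_apply, LinearMap.pi_apply]
      rw [if_neg (Ne.symm hc)]
      rfl
    · simp
  rw [this]
  exact FR.sum _ _ fun c _ => (h.comp_right (R c)).comp_left (E c)

theorem dm_sc (a : RatFunc F) : dm (sc ι a) = sc (ι × Fin 3) a := rfl

theorem dm_T (a : RatFunc F) : dm (T ι a) = T (ι × Fin 3) a := rfl

theorem dm_comm {s : ι → Bool} {b : Module.End F (ι → RatFunc F)} (h : b * PS s = PS s * b) :
    dm b * PS (sn s) = PS (sn s) * dm b := by
  refine LinearMap.ext fun f => funext fun p => ?_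
  have h1 : (dm b * PS (sn s) : Module.End F (ι × Fin 3 → RatFunc F)) f p =
      b (fun j => PS (sn s) f (j, p.2)) p.1 := rfl
  have h2 : (PS (sn s) * dm b : Module.End F (ι × Fin 3 → RatFunc F)) f p =
      (fun j => PS (sn s) (dm b f) (j, p.2)) p.1 := rfl
  rw [h1, h2, PS_sn_apply, PS_sn_apply]
  have h3 : (fun j => dm b f (j, p.2)) = b fun j => f (j, p.2) := rfl
  rw [h3]
  by_cases hc : p.2 = 2
  · rw [if_pos hc, ← Module.End.mul_apply, ← Module.End.mul_apply, mul_sub, sub_mul, h, mul_one,
      one_mul]
  · rw [if_neg hc, ← Module.End.mul_apply, ← Module.End.mul_apply, h]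

theorem dm_mem {s : ι → Bool} {b : Module.End F (ι → RatFunc F)} (h : b ∈ A s) :
    dm b ∈ A (sn s) := by
  obtain ⟨h1, a, ha⟩ := h
  refine ⟨dm_comm h1, a, ?_⟩
  rw [← dm_sc, ← map_sub]
  exact FR_dm ha

theorem dm_inj : Function.Injective (dm : Module.End F (ι → RatFunc F) → _) := by
  intro b c h
  refine LinearMap.ext fun f => funext fun i => ?_
  have := congrFun (LinearMap.congr_fun h (fun p : ι × Fin 3 => f p.1)) (i, 0)
  exact this

/-- the transition homomorphism -/
noncomputable def dA (s : ι → Bool) : A (F := F) s →+* A (F := F) (sn s) :=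
  ((dm (F := F) (ι := ι)).comp (A s).subtype).codRestrict (A (sn s)) fun b => dm_mem b.2

theorem dA_inj (s : ι → Bool) : Function.Injective (dA (F := F) s) := by
  intro b c h
  apply Subtype.ext
  apply dm_inj
  have := congrArg Subtype.val h
  exact this

/-- both components are non-zero after one amplification -/
theorem good_dm (s : ι → Bool) (a : Module.End F (ι → RatFunc F)) (ha : a ≠ 0) :
    PS (sn s) * dm a ≠ 0 ∧ (1 - PS (sn s)) * dm a ≠ 0 := by
  have key : ∀ (f : ι → RatFunc F) (c : Fin 3) (i : ι),
      (PS (sn s) * dm a : Module.End F (ι × Fin 3 → RatFunc F)) (fun p => f p.1) (i, c) =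
      (((if c = 2 then 1 - PS s else PS s : Module.End F (ι → RatFunc F))) * a) f i := by
    intro f c i
    have := congrFun (PS_sn_apply s (dm a (fun p => f p.1)) c) i
    exact this
  constructor
  · intro h
    apply ha
    have h1 : PS s * a = 0 := by
      refine LinearMap.ext fun f => funext fun i => ?_
      have := key f 0 i
      rw [h, if_neg (by decide)] at this
      exact this.symm
    have h2 : (1 - PS s) * a = 0 := by
      refine LinearMap.ext fun f => funext fun i => ?_
      have := key f 2 i
      rw [h, if_pos rfl] at this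
      exact this.symm
    calc a = PS s * a + (1 - PS s) * a := by rw [sub_mul, one_mul]; abel
      _ = 0 := by rw [h1, h2, add_zero]
  · intro h
    apply ha
    have key2 : ∀ (f : ι → RatFunc F) (c : Fin 3) (i : ι),
      ((1 - PS (sn s)) * dm a : Module.End F (ι × Fin 3 → RatFunc F)) (fun p => f p.1) (i, c) =
      a f i - (((if c = 2 then 1 - PS s else PS s : Module.End F (ι → RatFunc F))) * a) f i := by
      intro f c i
      rw [← key, sub_mul, one_mul]
      rfl
    have h1 : (1 - PS s) * a = 0 := by
      refine LinearMap.ext fun f => funext fun i => ?_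
      have := key2 f 0 i
      rw [h, if_neg (by decide)] at this
      rw [sub_mul, one_mul]
      exact this.symm
    have h2 : PS s * a = 0 := by
      refine LinearMap.ext fun f => funext fun i => ?_
      have := key2 f 2 i
      rw [h, if_pos rfl] at this
      rw [sub_mul, one_mul] at this
      have h3 : a f i - (a - PS s * a : Module.End F (ι → RatFunc F)) f i =
          (PS s * a : Module.End F (ι → RatFunc F)) f i := by
        show a f i - (a f i - (PS s * a : Module.End F (ι → RatFunc F)) f i) = _
        abel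
      rw [h3] at this
      exact this.symm
    calc a = PS s * a + (1 - PS s) * a := by rw [sub_mul, one_mul]; abel
      _ = 0 := by rw [h1, h2, add_zero]

/-- An element with both components non-zero generates an ideal that contains all finite rank
elements. -/
theorem kill {s : ι → Bool} {B : Type} [Ring B] (g : A (F := F) s →+* B) (a : A (F := F) s)
    (h1 : PS s * (a : Module.End F (ι → RatFunc F)) ≠ 0)
    (h2 : (1 - PS s) * (a : Module.End F (ι → RatFunc F)) ≠ 0) (hg : g a = 0)
    (z : A (F := F) s) (hz : FR (z : Module.End F (ι → RatFunc F))) : g z = 0 := by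
  have hP := PS_idem (F := F) s
  have main : ∀ Q : Module.End F (ι → RatFunc F), (Q = PS s ∨ Q = 1 - PS s) →
      Q * (a : Module.End F (ι → RatFunc F)) ≠ 0 →
      ∀ w : A (F := F) s, (w : Module.End F (ι → RatFunc F)) = z * Q → g w = 0 := by
    intro Q hQ hQa w hw
    have hQQ : Q * Q = Q := by
      rcases hQ with rfl | rfl
      · exact hP
      · rw [mul_sub, sub_mul, sub_mul, hP]; simp
    have hcomm : ∀ b : Module.End F (ι → RatFunc F), b * PS s = PS s * b → b * Q = Q * b := by
      intro b hb
      rcases hQ with rfl | rfl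
      · exact hb
      · rw [mul_sub, sub_mul, hb]; simp
    have hPQ : Q * PS s = PS s * Q := (hcomm (PS s) rfl).symm
    obtain ⟨n, p, q, hp, hq, hsum⟩ := rankone (a : Module.End F (ι → RatFunc F)) Q z hQQ
      (hcomm _ a.2.1) hQa (hcomm _ z.2.1) hz
    have hcomm2 : ∀ b : Module.End F (ι → RatFunc F), b * Q = b → Q * b = b →
        b * PS s = PS s * b := by
      intro b hb1 hb2
      rcases hQ with rfl | rfl
      · rw [hb1, hb2]
      · have e1 : b * PS s = 0 := by
          rw [mul_sub, mul_one] at hb1
          exact sub_eq_self.1 hb1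
        have e2 : PS s * b = 0 := by
          rw [sub_mul, one_mul] at hb2
          exact sub_eq_self.1 hb2
        rw [e1, e2]
    let p' : Fin n → A (F := F) s := fun i =>
      ⟨p i, mem_A_of_FR (hcomm2 _ (hp i).1 (hp i).2.1) (hp i).2.2⟩
    let q' : Fin n → A (F := F) s := fun i =>
      ⟨q i, mem_A_of_FR (hcomm2 _ (hq i).1 (hq i).2.1) (hq i).2.2⟩
    have hw' : w = ∑ i, p' i * a * q' i := by
      apply Subtype.ext
      rw [hw, hsum]
      push_cast
      rfl
    rw [hw', map_sum]
    refine Finset.sum_eq_zero fun i _ => ?_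
    rw [map_mul, map_mul, hg, mul_zero, zero_mul]
  -- the two components
  have hz1 : (z : Module.End F (ι → RatFunc F)) * PS s ∈ A s :=
    mem_A_of_FR (by rw [mul_assoc, hP, z.2.1, ← mul_assoc, hP]) (hz.mul_right _)
  have hz2 : (z : Module.End F (ι → RatFunc F)) * (1 - PS s) ∈ A s :=
    mem_A_of_FR (by
      have e1 : (1 - PS s) * PS s = (0 : Module.End F (ι → RatFunc F)) := by
        rw [sub_mul, hP]; simp
      have e2 : PS s * (1 - PS s) = (0 : Module.End F (ι → RatFunc F)) := by
        rw [mul_sub, hP]; simp
      rw [mul_assoc, e1, mul_zero]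
      have : (z : Module.End F (ι → RatFunc F)) * (1 - PS s) =
          (1 - PS s) * (z : Module.End F (ι → RatFunc F)) := by
        rw [mul_sub, sub_mul, z.2.1]; simp
      rw [this, ← mul_assoc, e2, zero_mul]) (hz.mul_right _)
  have e : z = ⟨_, hz1⟩ + ⟨_, hz2⟩ := by
    apply Subtype.ext
    show (z : Module.End F (ι → RatFunc F)) = (z : Module.End F (ι → RatFunc F)) * PS s +
      (z : Module.End F (ι → RatFunc F)) * (1 - PS s)
    rw [mul_sub, mul_one]; abel
  rw [e, map_add, main (PS s) (Or.inl rfl) h1 ⟨_, hz1⟩ rfl,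
    main (1 - PS s) (Or.inr rfl) h2 ⟨_, hz2⟩ rfl, add_zero]

/-- commutators have finite rank -/
theorem comm_FR {s : ι → Bool} (x y : A (F := F) s) :
    FR ((x * y - y * x : A (F := F) s) : Module.End F (ι → RatFunc F)) := by
  obtain ⟨-, a, ha⟩ := x.2
  obtain ⟨-, b, hb⟩ := y.2
  have e : ((x * y - y * x : A (F := F) s) : Module.End F (ι → RatFunc F)) =
      ((x : Module.End F (ι → RatFunc F)) * y - sc ι a * sc ι b) -
      ((y : Module.End F (ι → RatFunc F)) * x - sc ι b * sc ι a) := by
    rw [sc_mul, sc_mul, mul_comm a b]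
    push_cast
    abel
  rw [e, rid1, rid1]
  exact ((ha.mul_right _).add (hb.mul_left _)).sub ((hb.mul_right _).add (ha.mul_left _))

end step

end Pool.Agent.Y73.UR
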