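import Pool.Agent.Y73.UR.Base

set_option autoImplicit false

namespace Pool.Agent.Y73.UR

set_option linter.unusedSectionVars false

open Polynomial

section rings
variable {R : Type*} [Ring R]

theorem rid1 (b c x y : R) : b * c - x * y = (b - x) * c + x * (c - y) := by noncomm_ring

theorem rid2 (b d x y : R) (h1 : x * y = 1) : b - b * d * b =
    (b - x) - (b - x) * (d * b) - x * ((d - y) * b) - x * (y * (b - x)) := by
  have h2 : x * (y * (b - x)) = b - x := by rw [← mul_assoc, h1, one_mul]
  have h3 : x * ((d - y) * b) = x * d * b - b := by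
    rw [sub_mul, mul_sub, ← mul_assoc, ← mul_assoc, h1, one_mul]
  rw [h2, h3]
  noncomm_ring

theorem rid3 (b d e : R) : b * (d + (1 - d * b) * e * (1 - b * d)) * b
    = b * d * b + (b - b * d * b) * e * (b - b * d * b) := by noncomm_ring

end rings

section gen
variable {F U : Type} [Field F] [AddCommGroup U] [Module F U]

/-- quasi-inverse compatible with an idempotent, finite rank case -/
theorem quasi_FR (b Q : Module.End F U) (hQ : Q * Q = Q) (hb : b * Q = Q * b) (hF : FR b) :
    ∃ c : Module.End F U, c * Q = Q * c ∧ FR c ∧ b * c * b = b := by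
  obtain ⟨c0, hc0⟩ := exists_quasi b
  have hQ' : (1 - Q) * (1 - Q) = 1 - Q := by
    rw [mul_sub, sub_mul, sub_mul, hQ]; simp
  have hQQ : Q * (1 - Q) = 0 := by rw [mul_sub, hQ, mul_one, sub_self]
  have hQQ' : (1 - Q) * Q = 0 := by rw [sub_mul, hQ, one_mul, sub_self]
  have hb' : b * (1 - Q) = (1 - Q) * b := by rw [mul_sub, sub_mul, hb]; simp
  let c1 := Q * c0 * Q + (1 - Q) * c0 * (1 - Q)
  have h1 : c1 * Q = Q * c0 * Q := by
    show (Q * c0 * Q + (1 - Q) * c0 * (1 - Q)) * Q = _
    rw [add_mul, mul_assoc _ Q Q, hQ, mul_assoc _ (1 - Q) Q, hQQ', mul_zero, add_zero]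
  have h2 : Q * c1 = Q * c0 * Q := by
    show Q * (Q * c0 * Q + (1 - Q) * c0 * (1 - Q)) = _
    rw [mul_add, ← mul_assoc, ← mul_assoc, hQ, ← mul_assoc, ← mul_assoc, hQQ, zero_mul, zero_mul,
      add_zero]
  have h3 : b * c1 * b = b := by
    have e1 : b * (Q * c0 * Q) * b = Q * b := by
      calc b * (Q * c0 * Q) * b = (b * Q) * c0 * (Q * b) := by simp only [mul_assoc]
        _ = (Q * b) * c0 * (b * Q) := by rw [← hb]
        _ = Q * (b * c0 * b) * Q := by simp only [mul_assoc]
        _ = Q * (b * Q) := by rw [hc0, mul_assoc]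
        _ = Q * b := by rw [hb, ← mul_assoc, hQ]
    have e2 : b * ((1 - Q) * c0 * (1 - Q)) * b = (1 - Q) * b := by
      calc b * ((1 - Q) * c0 * (1 - Q)) * b = (b * (1 - Q)) * c0 * ((1 - Q) * b) := by
            simp only [mul_assoc]
        _ = ((1 - Q) * b) * c0 * (b * (1 - Q)) := by rw [← hb']
        _ = (1 - Q) * (b * c0 * b) * (1 - Q) := by simp only [mul_assoc]
        _ = (1 - Q) * (b * (1 - Q)) := by rw [hc0, mul_assoc]
        _ = (1 - Q) * b := by rw [hb', ← mul_assoc, hQ']
    show b * (Q * c0 * Q + (1 - Q) * c0 * (1 - Q)) * b = b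
    rw [mul_add, add_mul, e1, e2, sub_mul, one_mul]
    abel
  have h12 : c1 * Q = Q * c1 := by rw [h1, h2]
  refine ⟨c1 * b * c1, ?_, ?_, ?_⟩
  · calc c1 * b * c1 * Q = c1 * b * (c1 * Q) := by simp only [mul_assoc]
      _ = c1 * (b * Q) * c1 := by rw [h12]; simp only [mul_assoc]
      _ = (c1 * Q) * b * c1 := by rw [hb]; simp only [mul_assoc]
      _ = Q * (c1 * b * c1) := by rw [h12]; simp only [mul_assoc]
  · exact (hF.mul_left c1).mul_right c1
  · calc b * (c1 * b * c1) * b = (b * c1 * b) * c1 * b := by simp only [mul_assoc]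
      _ = b := by rw [h3, h3]

/-- A finite rank operator supported on an idempotent `Q` is a sum of products with a given
operator `a` with `Q * a ≠ 0`. -/
theorem rankone (a Q z : Module.End F U) (hQ : Q * Q = Q) (ha : a * Q = Q * a) (ha0 : Q * a ≠ 0)
    (hz : z * Q = Q * z) (hF : FR z) :
    ∃ (n : ℕ) (p q : Fin n → Module.End F U), (∀ i, p i * Q = p i ∧ Q * p i = p i ∧ FR (p i)) ∧
      (∀ i, q i * Q = q i ∧ Q * q i = q i ∧ FR (q i)) ∧ z * Q = ∑ i, p i * a * q i := by
  have hF0 : FR (z * Q) := hF.mul_right Q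
  generalize hz0 : z * Q = z0 at hF0
  have h1 : z0 * Q = z0 := by rw [← hz0, mul_assoc, hQ]
  have h2 : Q * z0 = z0 := by rw [← hz0, hz, ← mul_assoc, hQ]
  have hfd : FiniteDimensional F (LinearMap.range z0) := hF0
  let b := Module.finBasis F (LinearMap.range z0)
  have hbQ : ∀ i, Q (b i : U) = b i := by
    intro i
    obtain ⟨u, hu⟩ := (b i).2
    rw [← hu, ← Module.End.mul_apply, h2]
  -- a vector moved by `a`
  have : ∃ v0 : U, Q v0 = v0 ∧ a v0 ≠ 0 := by
    by_contra hcon
    push Not at hcon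
    apply ha0
    rw [← ha]
    ext u
    exact hcon (Q u) (by rw [← Module.End.mul_apply, hQ])
  obtain ⟨v0, hv0, hav⟩ := this
  have hQav : Q (a v0) = a v0 := by
    rw [← Module.End.mul_apply, ← ha, Module.End.mul_apply, hv0]
  obtain ⟨μ, hμ⟩ := Module.Projective.exists_dual_eq_one F hav
  let lam : Fin (Module.finrank F (LinearMap.range z0)) → (U →ₗ[F] F) := fun i =>
    (b.coord i) ∘ₗ z0.rangeRestrict
  have hlam : ∀ i u, lam i (Q u) = lam i u := by
    intro i u
    have : z0.rangeRestrict (Q u) = z0.rangeRestrict u := by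
      apply Subtype.ext
      show z0 (Q u) = z0 u
      rw [← Module.End.mul_apply, h1]
    show b.coord i (z0.rangeRestrict (Q u)) = b.coord i (z0.rangeRestrict u)
    rw [this]
  have hrk : ∀ (f : U →ₗ[F] F) (x : U), FR (f.smulRight x : Module.End F U) := by
    intro f x
    refine FR.of_le (Submodule.span F {x}) fun u => ?_
    rw [LinearMap.smulRight_apply]
    exact Submodule.smul_mem _ _ (Submodule.mem_span_singleton_self x)
  refine ⟨Module.finrank F (LinearMap.range z0),
    fun i => ((μ ∘ₗ Q).smulRight (b i : U) : Module.End F U),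
    fun i => ((lam i).smulRight v0 : Module.End F U), ?_, ?_, ?_⟩
  · intro i
    refine ⟨?_, ?_, hrk _ _⟩
    · ext u
      show μ (Q (Q u)) • (b i : U) = μ (Q u) • (b i : U)
      rw [← Module.End.mul_apply, hQ]
    · ext u
      show Q (μ (Q u) • (b i : U)) = μ (Q u) • (b i : U)
      rw [map_smul, hbQ]
  · intro i
    refine ⟨?_, ?_, hrk _ _⟩
    · ext u
      show lam i (Q u) • v0 = lam i u • v0
      rw [hlam]
    · ext u
      show Q (lam i u • v0) = lam i u • v0
      rw [map_smul, hv0]
  · ext u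
    have hsum := b.sum_repr (z0.rangeRestrict u)
    have hsum' := congrArg Subtype.val hsum
    rw [LinearMap.sum_apply]
    have : ∀ i, (((μ ∘ₗ Q).smulRight (b i : U) : Module.End F U) * a *
        ((lam i).smulRight v0 : Module.End F U)) u = lam i u • (b i : U) := by
      intro i
      show μ (Q (a (lam i u • v0))) • (b i : U) = lam i u • (b i : U)
      rw [map_smul, map_smul, map_smul, hQav, hμ, smul_eq_mul, mul_one]
    rw [Finset.sum_congr rfl fun i _ => this i]
    have e0 : z0 u = ((z0.rangeRestrict u : LinearMap.range z0) : U) := rfl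
    rw [e0, ← hsum']
    push_cast
    rfl

end gen

section bd
variable {F : Type} [Field F] {ι : Type} [Fintype ι] [DecidableEq ι]

/-- block diagonal operators -/
noncomputable def bd (φ : ι → Module.End F (RatFunc F)) : Module.End F (ι → RatFunc F) :=
  LinearMap.pi fun i => (φ i) ∘ₗ LinearMap.proj i

@[simp] theorem bd_apply (φ : ι → Module.End F (RatFunc F)) (f : ι → RatFunc F) (i : ι) :
    bd φ f i = φ i (f i) := rfl

theorem bd_mul (φ ψ : ι → Module.End F (RatFunc F)) : bd φ * bd ψ = bd (φ * ψ) := rfl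

theorem bd_add (φ ψ : ι → Module.End F (RatFunc F)) : bd φ + bd ψ = bd (φ + ψ) := rfl

theorem bd_sub (φ ψ : ι → Module.End F (RatFunc F)) : bd φ - bd ψ = bd (φ - ψ) := rfl

theorem bd_neg (φ : ι → Module.End F (RatFunc F)) : -bd φ = bd (-φ) := rfl

theorem bd_one : bd (1 : ι → Module.End F (RatFunc F)) = 1 := rfl

theorem bd_zero : bd (0 : ι → Module.End F (RatFunc F)) = 0 := rfl

theorem FR_bd (φ : ι → Module.End F (RatFunc F)) (h : ∀ i, FR (φ i)) : FR (bd φ) := by
  have : bd φ = ∑ i, (LinearMap.single F (fun _ : ι => RatFunc F) i) ∘ₗ (φ i) ∘ₗ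
      LinearMap.proj i := by
    refine LinearMap.ext fun f => funext fun j => ?_
    simp only [bd_apply, LinearMap.sum_apply, LinearMap.comp_apply, LinearMap.proj_apply,
      Finset.sum_apply, LinearMap.coe_single]
    rw [Finset.sum_eq_single j]
    · simp
    · intro i _ hij
      rw [Pi.single_eq_of_ne (Ne.symm hij)]
    · simp
  rw [this]
  exact FR.sum _ _ fun i _ => ((h i).comp_right _).comp_left _

/-- the sign projection on a block -/
noncomputable def Pb (t : Bool) : Module.End F (RatFunc F) := if t then 1 - P else P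

/-- the sign projection -/
noncomputable def PS (s : ι → Bool) : Module.End F (ι → RatFunc F) := bd fun i => Pb (s i)

/-- scalar multiplication -/
noncomputable def sc (ι : Type) [Fintype ι] [DecidableEq ι] (a : RatFunc F) :
    Module.End F (ι → RatFunc F) := bd fun _ => mu a

/-- compressed multiplication on a block -/
noncomputable def tb (a : RatFunc F) : Module.End F (RatFunc F) :=
  P * mu a * P + (1 - P) * mu a * (1 - P)

/-- compressed multiplication -/
noncomputable def T (ι : Type) [Fintype ι] [DecidableEq ι] (a : RatFunc F) :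
    Module.End F (ι → RatFunc F) := bd fun _ => tb a

theorem PP : (P : Module.End F (RatFunc F)) * P = P := by
  ext f; exact P_idem f

theorem Pb_idem (t : Bool) : (Pb t : Module.End F (RatFunc F)) * Pb t = Pb t := by
  cases t
  · exact PP
  · show (1 - P) * (1 - P) = (1 - P : Module.End F (RatFunc F))
    rw [mul_sub, sub_mul, sub_mul, PP]; simp

theorem PS_idem (s : ι → Bool) : (PS s : Module.End F (ι → RatFunc F)) * PS s = PS s := by
  unfold PS
  rw [bd_mul]
  congr 1
  funext i
  exact Pb_idem _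

theorem tb_comm_P (a : RatFunc F) : tb a * P = P * tb a := by
  unfold tb
  have h1 : (1 - P) * P = (0 : Module.End F (RatFunc F)) := by rw [sub_mul, PP]; simp
  have h2 : P * (1 - P) = (0 : Module.End F (RatFunc F)) := by rw [mul_sub, PP]; simp
  rw [add_mul, mul_add, mul_assoc _ P P, PP, mul_assoc _ (1 - P) P, h1, mul_zero,
    ← mul_assoc P (P * mu a) P, ← mul_assoc P P (mu a), PP, ← mul_assoc P _ (1 - P),
    ← mul_assoc P (1 - P) (mu a), h2, zero_mul, zero_mul]

theorem tb_comm_Pb (a : RatFunc F) (t : Bool) : tb a * Pb t = Pb t * tb a := by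
  cases t
  · exact tb_comm_P a
  · show tb a * (1 - P) = (1 - P) * tb a
    rw [mul_sub, sub_mul, tb_comm_P]; simp

theorem T_comm_PS (s : ι → Bool) (a : RatFunc F) : T ι a * PS s = PS s * T ι a := by
  unfold T PS
  rw [bd_mul, bd_mul]
  congr 1
  funext i
  exact tb_comm_Pb a _

theorem FR_tb_sub (a : RatFunc F) : FR (tb a - mu a) := by
  have h : tb a - mu a = (mu a * P - P * mu a) * (1 - P) - (1 - P) * (mu a * P - P * mu a) := by
    unfold tb
    have h1 : (mu a * P - P * mu a) * (1 - P) = - (P * mu a * (1 - P)) := by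
      rw [sub_mul, mul_assoc (mu a) P (1 - P)]
      have h2 : P * (1 - P) = (0 : Module.End F (RatFunc F)) := by rw [mul_sub, PP]; simp
      rw [h2, mul_zero, zero_sub]
    have h3 : (1 - P) * (mu a * P - P * mu a) = (1 - P) * mu a * P := by
      rw [mul_sub, ← mul_assoc (1 - P) P (mu a)]
      have h2 : (1 - P) * P = (0 : Module.End F (RatFunc F)) := by rw [sub_mul, PP]; simp
      rw [h2, zero_mul, sub_zero, mul_assoc]
    rw [h1, h3]
    noncomm_ring
  rw [h]
  exact ((FR_comm a).mul_right _).sub ((FR_comm a).mul_left _)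

theorem FR_T_sub (a : RatFunc F) : FR (T ι a - sc ι a) := by
  unfold T sc
  rw [bd_sub]
  exact FR_bd _ fun i => FR_tb_sub a

theorem sc_mul (a b : RatFunc F) : sc ι a * sc ι b = sc ι (a * b) := by
  ext f i
  simp [sc, mul_assoc]

theorem sc_add (a b : RatFunc F) : sc ι a + sc ι b = sc ι (a + b) := by
  ext f i
  simp [sc, add_mul]

theorem sc_one : sc ι (1 : RatFunc F) = 1 := by
  ext f i
  simp [sc]

theorem sc_zero : sc ι (0 : RatFunc F) = 0 := by
  ext f i
  simp [sc]

theorem sc_neg (a : RatFunc F) : -sc ι a = sc ι (-a) := by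
  ext f i
  simp [sc]

/-- the ring of the level -/
noncomputable def A (s : ι → Bool) : Subring (Module.End F (ι → RatFunc F)) where
  carrier := {b | b * PS s = PS s * b ∧ ∃ a : RatFunc F, FR (b - sc ι a)}
  mul_mem' := by
    rintro b c ⟨hb, a, ha⟩ ⟨hc, a', ha'⟩
    refine ⟨?_, a * a', ?_⟩
    · rw [mul_assoc, hc, ← mul_assoc, hb, mul_assoc]
    · have : b * c - sc ι (a * a') = (b - sc ι a) * c + sc ι a * (c - sc ι a') := by
        rw [← sc_mul]; exact rid1 _ _ _ _
      rw [this]
      exact (ha.mul_right c).add (ha'.mul_left _)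
  one_mem' := ⟨by simp, 1, by rw [sc_one, sub_self]; exact FR.zero⟩
  add_mem' := by
    rintro b c ⟨hb, a, ha⟩ ⟨hc, a', ha'⟩
    refine ⟨by rw [add_mul, mul_add, hb, hc], a + a', ?_⟩
    have : b + c - sc ι (a + a') = (b - sc ι a) + (c - sc ι a') := by
      rw [← sc_add]; abel
    rw [this]
    exact ha.add ha'
  zero_mem' := ⟨by simp, 0, by rw [sc_zero, sub_self]; exact FR.zero⟩
  neg_mem' := by
    rintro b ⟨hb, a, ha⟩
    refine ⟨(neg_mul b (PS s)).trans ((congrArg Neg.neg hb).trans (mul_neg (PS s) b).symm), -a, ?_⟩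
    have : -b - sc ι (-a) = -(b - sc ι a) := by rw [← sc_neg]; abel
    rw [this]
    exact ha.neg

theorem mem_A {s : ι → Bool} {b : Module.End F (ι → RatFunc F)} :
    b ∈ A s ↔ b * PS s = PS s * b ∧ ∃ a : RatFunc F, FR (b - sc ι a) := Iff.rfl

theorem mem_A_of_FR {s : ι → Bool} {b : Module.End F (ι → RatFunc F)} (h1 : b * PS s = PS s * b)
    (h2 : FR b) : b ∈ A s := ⟨h1, 0, by rw [sc_zero, sub_zero]; exact h2⟩

theorem T_mem (s : ι → Bool) (a : RatFunc F) : T ι a ∈ A s := ⟨T_comm_PS s a, a, FR_T_sub a⟩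

/-- each level is regular -/
theorem A_regular (s : ι → Bool) (b : Module.End F (ι → RatFunc F)) (hb : b ∈ A s) :
    ∃ c ∈ A s, b * c * b = b := by
  obtain ⟨hb1, a, ha⟩ := hb
  by_cases ha0 : a = 0
  · subst ha0
    rw [sc_zero, sub_zero] at ha
    obtain ⟨c, hc1, hc2, hc3⟩ := quasi_FR b (PS s) (PS_idem s) hb1 ha
    exact ⟨c, mem_A_of_FR hc1 hc2, hc3⟩
  · -- first a quasi-inverse modulo finite rank
    let d := T ι a⁻¹
    have hd : d ∈ A s := T_mem s a⁻¹
    have hbA : b ∈ A s := ⟨hb1, a, ha⟩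
    have hFR : FR (b - b * d * b) := by
      have e := rid2 b d (sc ι a) (sc ι a⁻¹) (by rw [sc_mul, mul_inv_cancel₀ ha0, sc_one])
      rw [e]
      refine ((ha.sub (ha.mul_right _)).sub ?_).sub ?_
      · exact ((FR_T_sub a⁻¹).mul_right b).mul_left _
      · exact (ha.mul_left _).mul_left _
    have hmem : b - b * d * b ∈ A s := (A s).sub_mem hbA ((A s).mul_mem ((A s).mul_mem hbA hd) hbA)
    obtain ⟨e, he1, he2, he3⟩ := quasi_FR (b - b * d * b) (PS s) (PS_idem s) hmem.1 hFR
    have heA : e ∈ A s := mem_A_of_FR he1 he2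
    refine ⟨d + (1 - d * b) * e * (1 - b * d), ?_, ?_⟩
    · exact (A s).add_mem hd ((A s).mul_mem ((A s).mul_mem ((A s).sub_mem (A s).one_mem
        ((A s).mul_mem hd hbA)) heA) ((A s).sub_mem (A s).one_mem ((A s).mul_mem hbA hd)))
    · rw [rid3, he3]; abel

/-- each level is directly finite -/
theorem A_dirfin (s : ι → Bool) (x y : Module.End F (ι → RatFunc F)) (hx : x ∈ A s)
    (h : x * y = 1) : y * x = 1 := by
  obtain ⟨-, a, ha⟩ := hx
  have hsurj : Function.Surjective x := by
    intro u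
    exact ⟨y u, by rw [← Module.End.mul_apply, h]; rfl⟩
  have hinj : Function.Injective x := by
    by_cases ha0 : a = 0
    · subst ha0
      rw [sc_zero, sub_zero] at ha
      have hr : LinearMap.range x = ⊤ := LinearMap.range_eq_top.2 hsurj
      have hfd : FiniteDimensional F (LinearMap.range x) := ha
      rw [hr] at hfd
      have : FiniteDimensional F (ι → RatFunc F) := Module.Finite.equiv Submodule.topEquiv
      exact LinearMap.injective_iff_surjective.2 hsurj
    · have h1 : sc ι a⁻¹ * sc ι a = 1 := by rw [sc_mul, inv_mul_cancel₀ ha0, sc_one]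
      have h2 : sc ι a * sc ι a⁻¹ = 1 := by rw [sc_mul, mul_inv_cancel₀ ha0, sc_one]
      have hθ : FR (sc ι a⁻¹ * (x - sc ι a)) := ha.mul_left _
      have e : 1 + sc ι a⁻¹ * (x - sc ι a) = sc ι a⁻¹ * x := by
        rw [mul_sub, h1]; abel
      have hs : Function.Surjective ((1 + sc ι a⁻¹ * (x - sc ι a) :
          Module.End F (ι → RatFunc F)) : (ι → RatFunc F) → (ι → RatFunc F)) := by
        rw [e]
        intro u
        obtain ⟨v, hv⟩ := hsurj (sc ι a u)
        refine ⟨v, ?_⟩
        rw [Module.End.mul_apply, hv, ← Module.End.mul_apply, h1]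
        rfl
      have hi := inj_of_surj hθ hs
      rw [e] at hi
      intro u v huv
      apply hi
      rw [Module.End.mul_apply, Module.End.mul_apply, huv]
  refine LinearMap.ext fun u => ?_
  apply hinj
  rw [← Module.End.mul_apply, ← mul_assoc, h, one_mul]
  rfl

end bd

end Pool.Agent.Y73.UR
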